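import Mathlib
import Pool.Agent.P.MP_4f9fa7_an.Defs
import Pool.Agent.P.MP_4f9fa7_an.Proofs

set_option autoImplicit false

namespace Pool.Agent.Results.MP_4f9fa7_an.Disproof

open Pool.Agent.P.MP_4f9fa7_an

/-- Each of the two conjectured equalities fails, at every positive value of the parameter,
in a two-dimensional real Banach space. -/
theorem result :
    (∀ ε : ℝ, 0 < ε →
      ∃ (X : Type) (_ : NormedAddCommGroup X) (_ : NormedSpace ℝ X) (_ : CompleteSpace X),
        Module.finrank ℝ X = 2 ∧ zetaMinus X ε - 1 < betaMinus X ε) ∧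
    (∃ (X : Type) (_ : NormedAddCommGroup X) (_ : NormedSpace ℝ X) (_ : CompleteSpace X),
        Module.finrank ℝ X = 2 ∧ ∀ ε : ℝ, 0 < ε → betaPlus X ε < zetaPlus X ε - 1) := by
  refine ⟨fun ε hε => ?_, ?_⟩
  · obtain ⟨a, ha⟩ := strip_minus ε hε
    exact ⟨Strip a, inferInstance, inferInstance, FiniteDimensional.complete ℝ _,
      finrank_Strip a, ha⟩
  · exact ⟨Hex, inferInstance, inferInstance, FiniteDimensional.complete ℝ _,
      finrank_Hex, hex_plus⟩

end Pool.Agent.Results.MP_4f9fa7_an.Disproof
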