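import Mathlib
import Pool.Agent.P.MP_4f9fa7_an.Defs
import Pool.Agent.P.MP_4f9fa7_an.H.Main
import Pool.Agent.P.MP_4f9fa7_an.H.Ellipse

set_option autoImplicit false

namespace Pool.Agent.Results.MP_4f9fa7_an.HilbertOnly

open Pool.Agent.P.MP_4f9fa7_an

/-- The conjectured equalities hold for all positive values of the parameter exactly when the norm
comes from an inner product; the lower equality at the value one and at arbitrarily large values
is already enough. -/
theorem result (X : Type) [NormedAddCommGroup X] [NormedSpace ℝ X] (hX : 2 ≤ Module.rank ℝ X) :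
    List.TFAE [
      ∀ ε : ℝ, 0 < ε → zetaMinus X ε - 1 = betaMinus X ε ∧ zetaPlus X ε - 1 = betaPlus X ε,
      ∀ ε : ℝ, 0 < ε → zetaMinus X ε - 1 = betaMinus X ε,
      zetaMinus X 1 - 1 = betaMinus X 1 ∧
        ∀ M : ℝ, ∃ ε : ℝ, M < ε ∧ zetaMinus X ε - 1 = betaMinus X ε,
      ∃ B : X →ₗ[ℝ] X →ₗ[ℝ] ℝ, (∀ x y, B x y = B y x) ∧ ∀ x, B x x = ‖x‖ ^ 2] := by
  tfae_have 1 → 2 := fun h ε hε => (h ε hε).1
  tfae_have 2 → 3 := fun h => ⟨h 1 one_pos, fun M => ⟨max M 0 + 1,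
    by linarith [le_max_left M 0], h _ (by linarith [le_max_right M 0])⟩⟩
  tfae_have 3 → 4 := fun h => by
    obtain ⟨h1, h2, h3⟩ := H.data hX h.1
    have hs := H.sym_of_large h.2
    exact H.form_of_par (H.ellipse hs (H.sqrt_two_le hs _ h1 h3) h1 h2)
  tfae_have 4 → 1 := fun ⟨_, h1, h2⟩ ε _ => H.moduli_of_form hX h1 h2 ε
  tfae_finish

end Pool.Agent.Results.MP_4f9fa7_an.HilbertOnly
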